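import Pool.Agent.BCR.Final

namespace Pool.Agent.Results.MP_7fd4b2_an.FiniteCriterion

open Bil62 Bil62.ConvexPolygon

/-- The criterion `Crit i` (for every vertex that is not an end of `a_i` and every direction one
of three billiard trajectories from the vertex reaches `a_i`) implies the statement of Q1 for the
side `a_i` of all nearby polygons.  It is satisfied, for all sides, by some convex `n`-gons for
`n = 4, 5, 6, 7, 8`. -/
theorem result :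
    (∀ (n : ℕ) [NeZero n] (P₀ : ConvexPolygon n) (i : Fin n), P₀.Crit i →
      ∃ ε > 0, ∀ P : ConvexPolygon n, (∀ k, ‖P.V k - P₀.V k‖ < ε) →
        ∀ M : Set (Fin n × ℝ × ℝ), P.Invariant M → P.mu ({z | z.1 = i} \ M) = 0 →
          P.mu Mᶜ = 0) ∧
    (∃ P₀ : ConvexPolygon 4, ∀ i, P₀.Crit i) ∧ (∃ P₀ : ConvexPolygon 5, ∀ i, P₀.Crit i) ∧
    (∃ P₀ : ConvexPolygon 6, ∀ i, P₀.Crit i) ∧ (∃ P₀ : ConvexPolygon 7, ∀ i, P₀.Crit i) ∧
    (∃ P₀ : ConvexPolygon 8, ∀ i, P₀.Crit i) :=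
  ⟨fun _ _ P₀ i h => finite_criterion P₀ i h, ⟨P4, crit4⟩, ⟨P5, crit5⟩, ⟨P6, crit6⟩, ⟨P7, crit7⟩,
    ⟨P8, crit8⟩⟩

end Pool.Agent.Results.MP_7fd4b2_an.FiniteCriterion
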