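import Pool.Agent.Helper62.Bil.Near

namespace Pool.Agent.Results.MP_7fd4b2_an.NearParallelogram

open Bil62 Bil62.ConvexPolygon

/-- Let `P₀` be a parallelogram that is not a rectangle.  Then for all convex quadrilaterals `P`
whose vertices are close enough to those of `P₀` and every side `a_i` of `P`, an invariant set
that contains `Φ_i` is all of `Φ`. -/
theorem result (P₀ : ConvexPolygon 4) (hpar : P₀.V 1 - P₀.V 0 = P₀.V 2 - P₀.V 3)
    (hrect : dot (P₀.V 1 - P₀.V 0) (P₀.V 2 - P₀.V 1) ≠ 0) :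
    ∃ ε > 0, ∀ P : ConvexPolygon 4, (∀ k, ‖P.V k - P₀.V k‖ < ε) →
      ∀ i : Fin 4, ∀ M : Set (Fin 4 × ℝ × ℝ), P.Invariant M →
        P.mu ({z | z.1 = i} \ M) = 0 → P.mu Mᶜ = 0 :=
  near_parallelogram P₀ hpar hrect

end Pool.Agent.Results.MP_7fd4b2_an.NearParallelogram
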