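import Pool.Agent.Helper62.Bil.Near

namespace Pool.Agent.Results.MP_7fd4b2_an.RightAngled

open Bil62 Bil62.ConvexPolygon

/-- Convex quadrilaterals with a right angle at `V 0` whose angles at `V 1` and `V 3` are not
obtuse: for every side `a_i`, an invariant set that contains `Φ_i` is all of `Φ`. -/
theorem result (P : ConvexPolygon 4) (h0 : dot (P.V 1 - P.V 0) (P.V 3 - P.V 0) = 0)
    (h1 : 0 ≤ dot (P.V 0 - P.V 1) (P.V 2 - P.V 1))
    (h3 : 0 ≤ dot (P.V 0 - P.V 3) (P.V 2 - P.V 3))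
    (i : Fin 4) (M : Set (Fin 4 × ℝ × ℝ)) (hM : P.Invariant M)
    (hi : P.mu ({z | z.1 = i} \ M) = 0) : P.mu Mᶜ = 0 :=
  right_angled P h0 h1 h3 i M hM hi

end Pool.Agent.Results.MP_7fd4b2_an.RightAngled
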