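import Pool.Agent.GRM.Main3

/-!
# Rays from the vertices and invariant sets of the billiard map, for every convex polygon

`MP_7fd4b2_an`, Q1.  `P` is a convex polygon and `a_i` one of its sides.  A vertex is called good if it is
an end of `a_i` or if the angle there is an irrational multiple of `π`.  `M` denotes invariant sets of the
billiard map which contain `Φ_i` up to a null set.

* (0) Almost every point outside of `M` has a forward orbit with infinitely many directions.
* (1) Almost every ray from a good vertex reaches the side `a_i`.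
* (2) There is an open set `Z` which is contained up to a null set in every such `M`, and the complement
  of `Z` has density zero at the good vertices.  If all vertices are good: for almost every angle `θ` the
  base points `s` with `(k, θ, s) ∈ Z` are dense in the side `k`, and for almost every base point `s` the
  angles `θ` with `(k, θ, s) ∈ Z` are dense in `(0, π)`; in particular `Z` is dense in the phase space.
* (3) If all vertices are good, such an `M` is everything as soon as for almost every `θ` its fibre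
  `{s | (k, θ, s) ∈ M}` in each side has a boundary of length zero.
-/

namespace Pool.Agent.Results.MP_7fd4b2_an.VertexRays

open Bil62 Bil62.ConvexPolygon MeasureTheory Set Filter Topology

theorem result (n : ℕ) [NeZero n] (P : ConvexPolygon n) (i : Fin n) :
    (∀ M : Set (Fin n × ℝ × ℝ), P.Invariant M → P.mu ({z | z.1 = i} \ M) = 0 →
      ∀ᵐ z ∂P.mu, z ∉ M → (range fun m : ℕ => P.vel (P.billiardMap^[m] z)).Infinite) ∧
    (∀ k : Fin n, (k = i ∨ k + 1 = i ∨
        Irrational (EuclideanGeometry.angle (P.V k) (P.V (k + 1)) (P.V (k + 1 + 1)) / Real.pi)) →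
      ∀ᵐ φ : ℝ, φ ∈ Ioo 0 (EuclideanGeometry.angle (P.V k) (P.V (k + 1)) (P.V (k + 1 + 1))) →
        ∃ (N : ℕ) (y : ℕ → Fin n × ℝ × ℝ), y 0 = (k + 1, φ, 0) ∧
          (∀ m ≤ N, y (m + 1) ∈ P.Phase ∧ P.Hits (y m) (y (m + 1))) ∧ (y (N + 1)).1 = i) ∧
    (∃ Z : Set (Fin n × ℝ × ℝ), IsOpen Z ∧
      (∀ M : Set (Fin n × ℝ × ℝ), P.Invariant M → P.mu ({z | z.1 = i} \ M) = 0 → P.mu (Z \ M) = 0) ∧
      (∀ k : Fin n, (k = i ∨ k + 1 = i ∨
          Irrational (EuclideanGeometry.angle (P.V k) (P.V (k + 1)) (P.V (k + 1 + 1)) / Real.pi)) →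
        Tendsto (fun ρ : ℝ => P.mu {z | z ∈ P.Phase ∧ z ∉ Z ∧ ‖P.pos z - P.V (k + 1)‖ < ρ} /
          ENNReal.ofReal ρ) (𝓝[>] 0) (𝓝 0)) ∧
      ((∀ k : Fin n, k = i ∨ k + 1 = i ∨
          Irrational (EuclideanGeometry.angle (P.V k) (P.V (k + 1)) (P.V (k + 1 + 1)) / Real.pi)) →
        ∀ k : Fin n,
          (∀ᵐ θ : ℝ, θ ∈ Ioo 0 Real.pi → Ioo 0 (P.len k) ⊆ closure {s | (k, θ, s) ∈ Z}) ∧
          (∀ᵐ s : ℝ, s ∈ Ioo 0 (P.len k) → Ioo 0 Real.pi ⊆ closure {θ | (k, θ, s) ∈ Z}))) ∧
    ((∀ k : Fin n, k = i ∨ k + 1 = i ∨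
        Irrational (EuclideanGeometry.angle (P.V k) (P.V (k + 1)) (P.V (k + 1 + 1)) / Real.pi)) →
      ∀ M : Set (Fin n × ℝ × ℝ), P.Invariant M → P.mu ({z | z.1 = i} \ M) = 0 →
        (∀ k : Fin n, ∀ᵐ θ : ℝ, θ ∈ Ioo 0 Real.pi →
          volume (frontier {s | s ∈ Ioo 0 (P.len k) ∧ (k, θ, s) ∈ M}) = 0) → P.mu Mᶜ = 0) :=
  Pool.Agent.GRM.main3 P i

end Pool.Agent.Results.MP_7fd4b2_an.VertexRays
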